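import Pool.Agent.H8.DS.TarA

/-!
# Module XOPEN of ds_modules
-/

set_option autoImplicit false

namespace Pool.Agent.H54.DS

open Set _root_.DS

theorem go_fst {S B : Type} (Y : Sys S B) : ∀ (w : List B) (y y' a b : S × ℝ),
    Y.Go w y a → Y.Go w y' b → y.1 = y'.1 → a.1 = b.1 := by
  intro w
  induction w with
  | nil =>
    intro y y' a b h1 h2 h
    simp only [Sys.Go] at h1 h2
    rw [← h1, ← h2]
    exact h
  | cons d w ih =>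
    intro y y' a b h1 h2 _
    exact ih _ _ a b h1.2.2 h2.2.2 rfl

theorem step1 {S B : Type} (Y : Sys S B) (fl : B → Prop)
    (hyp : ∀ b x, x ∈ Y.D b → ∃ ε > 0, ∀ x', |x' - x| < ε → ∃ b', Y.src b' = Y.src b ∧
      Y.tgt b' = Y.tgt b ∧ (fl b → fl b') ∧ x' ∈ Y.D b' ∧
      Y.al b' * x' + Y.c b' = Y.al b * x' + Y.c b) :
    ∀ w : List B, (∀ b ∈ w, fl b) → ∀ y y', Y.Go w y y' → ∃ ε > 0, ∀ x : ℝ, |x - y.2| < ε →
      ∃ w' : List B, w'.length = w.length ∧ (∀ b ∈ w', fl b) ∧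
        ∃ y₁, Y.Go w' (y.1, x) y₁ ∧ y₁.1 = y'.1 := by
  intro w
  induction w with
  | nil =>
    intro _ y y' h
    simp only [Sys.Go] at h
    refine ⟨1, one_pos, fun x _ => ⟨[], rfl, by simp, (y.1, x), rfl, ?_⟩⟩
    rw [← h]
  | cons b w ih =>
    intro hfl y y' h
    obtain ⟨hs, hD, hgo⟩ := h
    obtain ⟨ε₁, he1, h1⟩ := ih (fun d hd => hfl d (List.mem_cons_of_mem _ hd)) _ _ hgo
    obtain ⟨ε₂, he2, h2⟩ := hyp b y.2 hD
    have ha := Y.al_pos b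
    refine ⟨min ε₂ (ε₁ / Y.al b), lt_min he2 (div_pos he1 ha), fun x hx => ?_⟩
    obtain ⟨b', hb1, hb2, hb3, hb4, hb5⟩ := h2 x (lt_of_lt_of_le hx (min_le_left _ _))
    have h3 : |(Y.al b * x + Y.c b) - (Y.al b * y.2 + Y.c b)| < ε₁ := by
      have h4 : (Y.al b * x + Y.c b) - (Y.al b * y.2 + Y.c b) = Y.al b * (x - y.2) := by ring
      rw [h4, abs_mul, abs_of_pos ha, mul_comm]
      exact (lt_div_iff₀ ha).1 (lt_of_lt_of_le hx (min_le_right _ _))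
    obtain ⟨w'', hw1, hw2, y₁, hw3, hw4⟩ := h1 _ h3
    refine ⟨b' :: w'', by simp [hw1], ?_, y₁, ⟨hb1.trans hs, hb4, ?_⟩, hw4⟩
    · intro d hd
      rcases List.mem_cons.1 hd with rfl | hd
      · exact hb3 (hfl b (List.mem_cons_self ..))
      · exact hw2 d hd
    · rw [hb2, hb5]
      exact hw3

theorem pf_XOPEN : T_XOPEN := by
  intro S B _ Y fl hyp w hfl y y' hgo
  obtain ⟨ε, he, h⟩ := step1 Y fl hyp w hfl y y' hgo
  have h1 : ∀ x : ℝ, x ∈ Ioo y.2 (y.2 + ε) → ∃ w' : List B, w'.length = w.length ∧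
      (∀ b ∈ w', fl b) ∧ ∃ y₁, Y.Go w' (y.1, x) y₁ ∧ y₁.1 = y'.1 := by
    intro x hx
    refine h x ?_
    rw [abs_of_pos (sub_pos.2 hx.1)]
    linarith [hx.2]
  choose! f hf using h1
  have hinf : (Ioo y.2 (y.2 + ε)).Infinite := Ioo_infinite (by linarith)
  have hmaps : MapsTo f (Ioo y.2 (y.2 + ε)) {l : List B | l.length = w.length} :=
    fun x hx => (hf x hx).1
  obtain ⟨x₁, hx₁, x₂, hx₂, hne, heq⟩ :=
    hinf.exists_ne_map_eq_of_mapsTo hmaps (List.finite_length_eq B w.length)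
  have key : ∀ u v : ℝ, u ∈ Ioo y.2 (y.2 + ε) → v ∈ Ioo y.2 (y.2 + ε) → f u = f v → u < v →
      ∃ x x' : ℝ, x < x' ∧ ∃ w' : List B, w'.length = w.length ∧ (∀ b ∈ w', fl b) ∧
        ∀ z ∈ Ioo x x', ∃ y₁, Y.Go w' (y.1, z) y₁ ∧ y₁.1 = y'.1 := by
    intro u v hu hv huv hlt
    refine ⟨u, v, hlt, f u, (hf u hu).1, (hf u hu).2.1, fun z hz => ?_⟩
    obtain ⟨a, ha1, ha2⟩ := (hf u hu).2.2
    obtain ⟨b, hb1, hb2⟩ := (hf v hv).2.2
    rw [← huv] at hb1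
    obtain ⟨d, hd⟩ := (Y.Go_ord (f u) y.1).out ⟨a, ha1⟩ ⟨b, hb1⟩ ⟨hz.1.le, hz.2.le⟩
    exact ⟨d, hd, (go_fst Y (f u) _ _ d a hd ha1 rfl).trans ha2⟩
  rcases lt_or_gt_of_ne hne with hlt | hlt
  · exact key x₁ x₂ hx₁ hx₂ heq hlt
  · exact key x₂ x₁ hx₂ hx₁ heq.symm hlt

end Pool.Agent.H54.DS
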